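import Pool.Agent.W475.BG.Stm

set_option autoImplicit false

/-!
# Project BG, task DSC: zeros of the outer band in a disc
-/

namespace Pool.Agent.W236.BG

open Complex Filter Topology
open Pool.Agent.W475.BG
open Pool.Agent.W475.BH (nz ell)
open scoped ComplexConjugate

section Gen

variable {f : ℂ → ℂ}

theorem zeros_fin (hf : Differentiable ℂ f) (h0 : ∃ z₀, f z₀ ≠ 0) (R : ℝ) :
    {z : ℂ | ‖z‖ ≤ R ∧ analyticOrderNatAt f z ≠ 0}.Finite := by
  have han : ∀ z, AnalyticAt ℂ f z := fun z => hf.analyticAt z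
  by_contra hinf
  have hsub : {z : ℂ | ‖z‖ ≤ R ∧ analyticOrderNatAt f z ≠ 0} ⊆ Metric.closedBall 0 R := by
    intro z hz; simpa using hz.1
  obtain ⟨x, -, hx⟩ :=
    Set.Infinite.exists_accPt_of_subset_isCompact hinf (isCompact_closedBall 0 R) hsub
  have hfr : ∃ᶠ z in 𝓝[≠] x, f z = 0 := by
    rw [accPt_iff_frequently_nhdsNE] at hx
    refine hx.mono fun z hz => ?_
    by_contra hne
    exact hz.2 (by
      have : analyticOrderAt f z = 0 := (han z).analyticOrderAt_eq_zero.2 hne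
      simp [analyticOrderNatAt, this])
  have := AnalyticOnNhd.eqOn_zero_of_preconnected_of_frequently_eq_zero
    (fun z _ => han z : AnalyticOnNhd ℂ f Set.univ) isPreconnected_univ (Set.mem_univ x) hfr
  obtain ⟨z₀, hz₀⟩ := h0
  exact hz₀ (this (Set.mem_univ z₀))

theorem nz_eq (hf : Differentiable ℂ f) (h0 : ∃ z₀, f z₀ ≠ 0) {R : ℝ} {A : Set ℂ}
    (hA : ∀ z ∈ A, ‖z‖ ≤ R) :
    nz f A = ∑ z ∈ (zeros_fin hf h0 R).toFinset,
      Set.indicator A (fun z => analyticOrderNatAt f z) z := by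
  unfold nz
  rw [finsum_mem_def]
  refine finsum_eq_sum_of_support_subset _ ?_
  intro z hz
  simp only [Function.mem_support, ne_eq] at hz
  have hzA : z ∈ A := by
    by_contra h
    exact hz (Set.indicator_of_notMem h _)
  rw [Set.indicator_of_mem hzA] at hz
  rw [Set.Finite.coe_toFinset]
  exact ⟨hA z hzA, hz⟩

theorem nz_sum_le (hf : Differentiable ℂ f) (h0 : ∃ z₀, f z₀ ≠ 0) {ι : Type*} (J : Finset ι)
    (A : ι → Set ℂ) {B : Set ℂ} {R : ℝ} (hB : ∀ z ∈ B, ‖z‖ ≤ R) (hAB : ∀ j ∈ J, A j ⊆ B)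
    (hd : ∀ j ∈ J, ∀ k ∈ J, j ≠ k → Disjoint (A j) (A k)) :
    ∑ j ∈ J, nz f (A j) ≤ nz f B := by
  classical
  rw [nz_eq hf h0 hB]
  have : ∀ j ∈ J, nz f (A j) = ∑ z ∈ (zeros_fin hf h0 R).toFinset,
      Set.indicator (A j) (fun z => analyticOrderNatAt f z) z :=
    fun j hj => nz_eq hf h0 (fun z hz => hB z (hAB j hj hz))
  rw [Finset.sum_congr rfl this, Finset.sum_comm]
  refine Finset.sum_le_sum fun z _ => ?_
  by_cases hz : ∃ j ∈ J, z ∈ A j
  · obtain ⟨j, hj, hzj⟩ := hz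
    rw [Finset.sum_eq_single_of_mem j hj]
    · rw [Set.indicator_of_mem hzj, Set.indicator_of_mem (hAB j hj hzj)]
    · intro k hk hkj
      exact Set.indicator_of_notMem
        (fun h => Set.disjoint_left.mp (hd k hk j hj hkj) h hzj) _
  · push Not at hz
    rw [Finset.sum_eq_zero fun j hj => Set.indicator_of_notMem (hz j hj) _]
    exact Nat.zero_le _

theorem nz_le_sum (hf : Differentiable ℂ f) (h0 : ∃ z₀, f z₀ ≠ 0) {ι : Type*} (J : Finset ι)
    (A : ι → Set ℂ) {B : Set ℂ} {R : ℝ} (hA : ∀ j ∈ J, ∀ z ∈ A j, ‖z‖ ≤ R)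
    (hAB : ∀ z ∈ B, ∃ j ∈ J, z ∈ A j) :
    nz f B ≤ ∑ j ∈ J, nz f (A j) := by
  classical
  have hB : ∀ z ∈ B, ‖z‖ ≤ R := by
    intro z hz
    obtain ⟨j, hj, hzj⟩ := hAB z hz
    exact hA j hj z hzj
  rw [nz_eq hf h0 hB]
  have : ∀ j ∈ J, nz f (A j) = ∑ z ∈ (zeros_fin hf h0 R).toFinset,
      Set.indicator (A j) (fun z => analyticOrderNatAt f z) z :=
    fun j hj => nz_eq hf h0 (hA j hj)
  rw [Finset.sum_congr rfl this, Finset.sum_comm]
  refine Finset.sum_le_sum fun z _ => ?_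
  by_cases hz : z ∈ B
  · obtain ⟨j, hj, hzj⟩ := hAB z hz
    rw [Set.indicator_of_mem hz]
    calc analyticOrderNatAt f z = Set.indicator (A j) (fun z => analyticOrderNatAt f z) z := by
          rw [Set.indicator_of_mem hzj]
      _ ≤ _ := Finset.single_le_sum
          (f := fun j => Set.indicator (A j) (fun z => analyticOrderNatAt f z) z)
          (fun i _ => Nat.zero_le _) hj
  · rw [Set.indicator_of_notMem hz]
    exact Nat.zero_le _

theorem ana_conj {h : ℂ → ℂ} {a : ℂ} (hh : AnalyticAt ℂ h a) :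
    AnalyticAt ℂ (fun z => conj (h (conj z))) (conj a) := by
  have h1 : ∀ᶠ z in 𝓝 a, DifferentiableAt ℂ h z :=
    hh.eventually_analyticAt.mono fun z hz => hz.differentiableAt
  have hcont : Tendsto (fun z : ℂ => conj z) (𝓝 (conj a)) (𝓝 a) := by
    have := (Complex.continuous_conj.tendsto (conj a))
    rwa [Complex.conj_conj] at this
  have h2 := hcont.eventually h1
  rw [Complex.analyticAt_iff_eventually_differentiableAt]
  filter_upwards [h2] with z hz
  have h3 := (differentiableAt_conj_conj_iff (f := h) (x := z)).2 hz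
  exact h3

theorem order_conj (hf : Differentiable ℂ f) (z : ℂ) :
    analyticOrderNatAt (fun w => conj (f (conj w))) (conj z) = analyticOrderNatAt f z := by
  have hcont : Tendsto (fun w : ℂ => conj w) (𝓝 (conj z)) (𝓝 z) := by
    have := (Complex.continuous_conj.tendsto (conj z))
    rwa [Complex.conj_conj] at this
  have hfa := hf.analyticAt z
  have hga : AnalyticAt ℂ (fun w => conj (f (conj w))) (conj z) := ana_conj hfa
  by_cases htop : analyticOrderAt f z = ⊤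
  · have h1 := analyticOrderAt_eq_top.1 htop
    have h2 : analyticOrderAt (fun w => conj (f (conj w))) (conj z) = ⊤ := by
      rw [analyticOrderAt_eq_top]
      filter_upwards [hcont.eventually h1] with w hw
      rw [hw, map_zero]
    simp only [analyticOrderNatAt, htop, h2]
  · obtain ⟨h, hh, hh0, hev⟩ := hfa.analyticOrderAt_ne_top.1 htop
    have h2 : analyticOrderAt (fun w => conj (f (conj w))) (conj z) =
        (analyticOrderNatAt f z : ℕ∞) := by
      rw [hga.analyticOrderAt_eq_natCast]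
      refine ⟨fun w => conj (h (conj w)), ana_conj hh, ?_, ?_⟩
      · simpa using hh0
      · filter_upwards [hcont.eventually hev] with w hw
        rw [hw, smul_eq_mul, map_mul, map_pow, map_sub, Complex.conj_conj, smul_eq_mul]
    rw [analyticOrderNatAt, h2]
    simp

theorem nz_conj (hf : Differentiable ℂ f) (A : Set ℂ) :
    nz f {z | conj z ∈ A} = nz (fun w => conj (f (conj w))) A := by
  unfold nz
  refine finsum_mem_eq_of_bijOn (fun z => conj z) ?_ ?_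
  · refine ⟨fun z hz => hz, fun z _ w _ h => ?_, fun z hz => ⟨conj z, ?_, Complex.conj_conj z⟩⟩
    · have := congrArg conj h
      simpa using this
    · simpa using hz
  · intro z _
    exact (order_conj hf z).symm

end Gen

/-- the region of CNT -/
def Blk (X1 X2 T : ℝ) : Set ℂ :=
  {z | X1 * Real.log T ≤ z.re ∧ z.re ≤ X2 * Real.log T ∧ T < z.im ∧ z.im ≤ 2 * T}

/-- the upper part -/
def Up (Y1 Y2 R : ℝ) : Set ℂ :=
  {z | ‖z‖ ≤ R ∧ Y1 * Real.log R ≤ z.re ∧ z.re ≤ Y2 * Real.log R ∧ 0 < z.im}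

/-- the region of DSC -/
def Rg (Y1 Y2 R : ℝ) : Set ℂ :=
  {z | ‖z‖ ≤ R ∧ Y1 * Real.log R ≤ z.re ∧ z.re ≤ Y2 * Real.log R}

theorem tends_log_mul {a : ℝ} (ha : 0 < a) :
    Tendsto (fun R : ℝ => (a * R * Real.log (a * R)) / (R * Real.log R)) atTop (𝓝 a) := by
  have h1 : Tendsto (fun R : ℝ => a * (Real.log a / Real.log R + 1)) atTop (𝓝 (a * (0 + 1))) :=
    ((Tendsto.div_atTop tendsto_const_nhds Real.tendsto_log_atTop).add_const 1).const_mul a
  rw [zero_add, mul_one] at h1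
  refine h1.congr' ?_
  filter_upwards [eventually_gt_atTop (1 : ℝ)] with R hR
  have hl : 0 < Real.log R := Real.log_pos hR
  rw [Real.log_mul ha.ne' (by linarith)]
  field_simp

/-- rescaling -/
theorem resc {F : ℝ → ℝ} {a L : ℝ} (ha : 0 < a)
    (h : Tendsto (fun T : ℝ => F T / (T * Real.log T)) atTop (𝓝 L)) :
    Tendsto (fun R : ℝ => F (a * R) / (R * Real.log R)) atTop (𝓝 (L * a)) := by
  have hT : Tendsto (fun R : ℝ => a * R) atTop atTop := tendsto_id.const_mul_atTop ha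
  have hc2 := (h.comp hT).mul (tends_log_mul ha)
  refine hc2.congr' ?_
  have hev : ∀ᶠ R : ℝ in atTop, 1 < a * R := hT.eventually_gt_atTop 1
  filter_upwards [hev, eventually_gt_atTop (1 : ℝ)] with R hR hR1
  have hl : 0 < Real.log R := Real.log_pos hR1
  have hl2 : 0 < Real.log (a * R) := Real.log_pos hR
  simp only [Function.comp]
  have hne : a * R * Real.log (a * R) ≠ 0 := (mul_pos (by linarith) hl2).ne'
  rw [div_mul_div_cancel₀ hne]

theorem ev_lin {κ c : ℝ} (hκ : 0 < κ) (hc : 0 < c) :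
    ∀ᶠ R : ℝ in atTop, κ * Real.log R ≤ c * R := by
  have h := Real.isLittleO_log_id_atTop.bound (show 0 < c / κ by exact div_pos hc hκ)
  filter_upwards [h, eventually_ge_atTop (1 : ℝ)] with R hR hR1
  simp only [id, Real.norm_eq_abs] at hR
  rw [abs_of_nonneg (Real.log_nonneg hR1), abs_of_nonneg (by linarith : (0 : ℝ) ≤ R)] at hR
  calc κ * Real.log R ≤ κ * (c / κ * R) := mul_le_mul_of_nonneg_left hR hκ.le
    _ = c * R := by field_simp

theorem up_block {f : ℂ → ℂ} (hf : Differentiable ℂ f) (h0 : ∃ z₀, f z₀ ≠ 0) {κ Y1 Y2 δ c : ℝ}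
    (hκ : 0 < κ) (h1 : -κ ≤ Y1) (h2 : Y2 ≤ κ) (hδ : 0 < δ)
    (hc0 : 0 < c) (hc1 : c < 1) (J : ℕ) :
    ∀ᶠ R : ℝ in atTop, ∑ j ∈ Finset.range J,
      nz f (Blk (Y1 + δ) (Y2 - δ) (c / 2 ^ (j + 1) * R)) ≤ nz f (Up Y1 Y2 R) := by
  have hlog := Real.tendsto_log_atTop
  have e1 : ∀ᶠ R : ℝ in atTop, κ * Real.log R ≤ (1 - c) * R := ev_lin hκ (by linarith)
  have e2 : ∀ᶠ R : ℝ in atTop, ∀ j ∈ Finset.range J,
      Y1 * Real.log R ≤ (Y1 + δ) * (Real.log (c / 2 ^ (j + 1)) + Real.log R) ∧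
      (Y2 - δ) * (Real.log (c / 2 ^ (j + 1)) + Real.log R) ≤ Y2 * Real.log R := by
    rw [Filter.eventually_all_finset]
    intro j _
    have l1 := hlog.eventually_ge_atTop (-((Y1 + δ) * Real.log (c / 2 ^ (j + 1))) / δ)
    have l2 := hlog.eventually_ge_atTop ((Y2 - δ) * Real.log (c / 2 ^ (j + 1)) / δ)
    filter_upwards [l1, l2] with R hR1 hR2
    rw [div_le_iff₀ hδ] at hR1 hR2
    constructor <;> nlinarith
  filter_upwards [e1, e2, eventually_ge_atTop (1 : ℝ)] with R hR1 hR2 hR3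
  refine nz_sum_le hf h0 _ _ (R := R) (fun z hz => hz.1) ?_ ?_
  · intro j hj z hz
    obtain ⟨a1, a2, a3, a4⟩ := hz
    have hp : (0 : ℝ) < 2 ^ (j + 1) := by positivity
    have hpos : 0 < c / 2 ^ (j + 1) := div_pos hc0 hp
    rw [Real.log_mul hpos.ne' (by linarith)] at a1 a2
    obtain ⟨b1, b2⟩ := hR2 j hj
    have hre1 : Y1 * Real.log R ≤ z.re := b1.trans a1
    have hre2 : z.re ≤ Y2 * Real.log R := a2.trans b2
    have hl : 0 ≤ Real.log R := Real.log_nonneg hR3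
    have him : 0 < z.im := lt_of_le_of_lt (by positivity) a3
    refine ⟨?_, hre1, hre2, him⟩
    have habs : |z.re| ≤ κ * Real.log R := by
      rw [abs_le]
      constructor
      · nlinarith
      · nlinarith
    have him2 : z.im ≤ c * R := by
      refine a4.trans ?_
      have h2j : (1 : ℝ) ≤ 2 ^ j := one_le_pow₀ (by norm_num)
      have : 2 * (c / 2 ^ (j + 1) * R) = c * R / 2 ^ j := by
        rw [pow_succ]; field_simp
      rw [this]
      exact div_le_self (by positivity) h2j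
    calc ‖z‖ ≤ |z.re| + |z.im| := Complex.norm_le_abs_re_add_abs_im z
      _ ≤ κ * Real.log R + c * R := by
          rw [abs_of_pos him]; exact add_le_add habs him2
      _ ≤ R := by linarith
  · intro j _ k _ hjk
    rw [Set.disjoint_left]
    have key : ∀ j k : ℕ, j < k → ∀ z : ℂ, z ∈ Blk (Y1 + δ) (Y2 - δ) (c / 2 ^ (j + 1) * R) →
        z ∉ Blk (Y1 + δ) (Y2 - δ) (c / 2 ^ (k + 1) * R) := by
      intro j k hjk z hz hz'
      have a := hz.2.2.1
      have b := hz'.2.2.2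
      have hpow : (2 : ℝ) ^ (j + 1) ≤ 2 ^ k := pow_le_pow_right₀ (by norm_num) hjk
      have h3 : 2 * (c / 2 ^ (k + 1) * R) = c / 2 ^ k * R := by
        rw [pow_succ]; field_simp
      rw [h3] at b
      have h4 : c / 2 ^ k * R ≤ c / 2 ^ (j + 1) * R := by
        refine mul_le_mul_of_nonneg_right ?_ (by linarith)
        exact div_le_div_of_nonneg_left hc0.le (by positivity) hpow
      linarith
    intro z hz hz'
    rcases lt_or_gt_of_ne hjk with h | h
    · exact key j k h z hz hz'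
    · exact key k j h z hz' hz

theorem geo_sum (J : ℕ) : ∑ j ∈ Finset.range J, (1 : ℝ) / 2 ^ (j + 1) = 1 - (1 / 2) ^ J := by
  induction J with
  | zero => simp
  | succ n ih =>
    rw [Finset.sum_range_succ, ih, pow_succ, pow_succ, one_div, one_div, inv_pow]
    field_simp; ring

theorem up_lower {f : ℂ → ℂ} (hf : Differentiable ℂ f) (h0 : ∃ z₀, f z₀ ≠ 0) {κ K Y1 Y2 : ℝ}
    (hκ : 0 < κ) (hK : 0 < K)
    (hC : ∀ Z1 Z2 : ℝ, Y1 ≤ Z1 → Z1 ≤ Z2 → Z2 ≤ Y2 →
      Tendsto (fun T : ℝ => (nz f (Blk Z1 Z2 T) : ℝ) / (T * Real.log T)) atTop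
        (𝓝 ((Z2 - Z1) / (4 * Real.pi * κ))))
    (h1 : -K ≤ Y1) (h2 : Y2 ≤ K) {η : ℝ} (hη : 0 < η) :
    ∀ᶠ R : ℝ in atTop, (Y2 - Y1) / (4 * Real.pi * κ) - η ≤
      (nz f (Up Y1 Y2 R) : ℝ) / (R * Real.log R) := by
  have hpi := Real.pi_pos
  have hden : 0 < 4 * Real.pi * κ := by positivity
  rcases le_or_gt Y2 Y1 with h12 | h12
  · filter_upwards [eventually_gt_atTop (1 : ℝ)] with R hR
    have hl : 0 < Real.log R := Real.log_pos hR
    have hD : (Y2 - Y1) / (4 * Real.pi * κ) ≤ 0 :=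
      div_nonpos_of_nonpos_of_nonneg (by linarith) hden.le
    have : (0 : ℝ) ≤ (nz f (Up Y1 Y2 R) : ℝ) / (R * Real.log R) := by positivity
    linarith
  set D := (Y2 - Y1) / (4 * Real.pi * κ) with hDdef
  have hD : 0 < D := div_pos (by linarith) hden
  obtain ⟨s, hs0, hs1, hs2⟩ : ∃ s : ℝ, 0 < s ∧ s < 1 ∧ 3 * s * D < η := by
    refine ⟨min (1 / 2) (η / (6 * D)), lt_min (by norm_num) (by positivity), ?_, ?_⟩
    · exact lt_of_le_of_lt (min_le_left _ _) (by norm_num)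
    · have := min_le_right (1 / 2) (η / (6 * D))
      calc 3 * min (1 / 2) (η / (6 * D)) * D ≤ 3 * (η / (6 * D)) * D := by
            gcongr
        _ = η / 2 := by field_simp; norm_num
        _ < η := by linarith
  obtain ⟨J, hJ⟩ : ∃ J : ℕ, (1 / 2 : ℝ) ^ J < s := exists_pow_lt_of_lt_one hs0 (by norm_num)
  have hblk := up_block hf h0 (δ := s * (Y2 - Y1) / 2) (c := 1 - s) hK h1 h2
    (by have := mul_pos hs0 (show (0 : ℝ) < Y2 - Y1 by linarith); linarith)
    (by linarith) (by linarith) J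
  have hlim : Tendsto (fun R : ℝ => ∑ j ∈ Finset.range J,
      (nz f (Blk (Y1 + s * (Y2 - Y1) / 2) (Y2 - s * (Y2 - Y1) / 2)
        ((1 - s) / 2 ^ (j + 1) * R)) : ℝ) / (R * Real.log R)) atTop
      (𝓝 (∑ j ∈ Finset.range J, (1 - s) * D * ((1 - s) / 2 ^ (j + 1)))) := by
    refine tendsto_finsetSum _ fun j _ => ?_
    have ha : 0 < (1 - s) / 2 ^ (j + 1) := div_pos (by linarith) (by positivity)
    have hsY : 0 ≤ s * (Y2 - Y1) / 2 := by
      have := mul_pos hs0 (show (0 : ℝ) < Y2 - Y1 by linarith); linarith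
    have hsY2 : s * (Y2 - Y1) ≤ Y2 - Y1 := by nlinarith
    have hcnt := hC (Y1 + s * (Y2 - Y1) / 2) (Y2 - s * (Y2 - Y1) / 2) (by linarith)
      (by linarith) (by linarith)
    have hval : ((Y2 - s * (Y2 - Y1) / 2) - (Y1 + s * (Y2 - Y1) / 2)) / (4 * Real.pi * κ) =
        (1 - s) * D := by
      rw [hDdef]; ring
    rw [hval] at hcnt
    exact resc (F := fun T => (nz f (Blk (Y1 + s * (Y2 - Y1) / 2) (Y2 - s * (Y2 - Y1) / 2) T) : ℝ))
      ha hcnt
  have hsum : ∑ j ∈ Finset.range J, (1 - s) * D * ((1 - s) / 2 ^ (j + 1)) =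
      (1 - s) * D * (1 - s) * (1 - (1 / 2) ^ J) := by
    rw [← geo_sum J, Finset.mul_sum]
    refine Finset.sum_congr rfl fun j _ => ?_
    ring
  rw [hsum] at hlim
  have hval : D - η < (1 - s) * D * (1 - s) * (1 - (1 / 2) ^ J) := by
    have hp : 1 - s < 1 - (1 / 2 : ℝ) ^ J := by linarith
    have h1s : 0 < 1 - s := by linarith
    have : (1 - s) * D * (1 - s) * (1 - s) ≤ (1 - s) * D * (1 - s) * (1 - (1 / 2) ^ J) :=
      mul_le_mul_of_nonneg_left hp.le (by positivity)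
    have h3 : (1 - 3 * s) ≤ (1 - s) * (1 - s) * (1 - s) := by
      have : 0 ≤ s ^ 2 * (3 - s) := by
        apply mul_nonneg (by positivity) (by linarith)
      nlinarith
    have h4 : (1 - 3 * s) * D ≤ (1 - s) * (1 - s) * (1 - s) * D :=
      mul_le_mul_of_nonneg_right h3 hD.le
    nlinarith
  have hev := hlim.eventually (eventually_gt_nhds hval)
  filter_upwards [hev, hblk, eventually_gt_atTop (1 : ℝ)] with R hR hRb hR1
  have hl : 0 < Real.log R := Real.log_pos hR1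
  refine hR.le.trans ?_
  rw [← Finset.sum_div]
  refine div_le_div_of_nonneg_right ?_ (by positivity)
  exact_mod_cast hRb

theorem rg_lower {f g : ℂ → ℂ} (hf : Differentiable ℂ f) (h0 : ∃ z₀, f z₀ ≠ 0)
    (hg : Differentiable ℂ g) (h0g : ∃ z₀, g z₀ ≠ 0)
    (hfg : ∀ A : Set ℂ, nz f {z | conj z ∈ A} = nz g A) {κ K Y1 Y2 : ℝ}
    (hκ : 0 < κ) (hK : 0 < K)
    (hC : ∀ Z1 Z2 : ℝ, Y1 ≤ Z1 → Z1 ≤ Z2 → Z2 ≤ Y2 →
      Tendsto (fun T : ℝ => (nz f (Blk Z1 Z2 T) : ℝ) / (T * Real.log T)) atTop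
        (𝓝 ((Z2 - Z1) / (4 * Real.pi * κ))))
    (hCg : ∀ Z1 Z2 : ℝ, Y1 ≤ Z1 → Z1 ≤ Z2 → Z2 ≤ Y2 →
      Tendsto (fun T : ℝ => (nz g (Blk Z1 Z2 T) : ℝ) / (T * Real.log T)) atTop
        (𝓝 ((Z2 - Z1) / (4 * Real.pi * κ))))
    (h1 : -K ≤ Y1) (h2 : Y2 ≤ K) {η : ℝ} (hη : 0 < η) :
    ∀ᶠ R : ℝ in atTop, (Y2 - Y1) / (2 * Real.pi * κ) - η ≤
      (nz f (Rg Y1 Y2 R) : ℝ) / (R * Real.log R) := by
  have hpi := Real.pi_pos
  have a := up_lower hf h0 hκ hK hC h1 h2 (half_pos hη)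
  have b := up_lower hg h0g hκ hK hCg h1 h2 (half_pos hη)
  filter_upwards [a, b, eventually_gt_atTop (1 : ℝ)] with R ha hb hR
  have hl : 0 < Real.log R := Real.log_pos hR
  have hsum : nz f (Up Y1 Y2 R) + nz g (Up Y1 Y2 R) ≤ nz f (Rg Y1 Y2 R) := by
    rw [← hfg (Up Y1 Y2 R)]
    have := nz_sum_le hf h0 (Finset.univ : Finset Bool)
      (fun i => if i then Up Y1 Y2 R else {z | conj z ∈ Up Y1 Y2 R})
      (B := Rg Y1 Y2 R) (R := R) (fun z hz => hz.1) ?_ ?_
    · simpa using this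
    · intro i _ z hz
      cases i
      · simp only [Bool.false_eq_true, if_false] at hz
        obtain ⟨c1, c2, c3, c4⟩ := hz
        rw [Complex.norm_conj] at c1
        simp only [Complex.conj_re] at c2 c3
        exact ⟨c1, c2, c3⟩
      · simp only [if_true] at hz
        exact ⟨hz.1, hz.2.1, hz.2.2.1⟩
    · intro i _ j _ hij
      have key : Disjoint (Up Y1 Y2 R) {z | conj z ∈ Up Y1 Y2 R} := by
        rw [Set.disjoint_left]
        intro z hz hz'
        have c1 := hz.2.2.2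
        have c2 := hz'.2.2.2
        simp only [Complex.conj_im] at c2
        linarith
      cases i <;> cases j <;> simp_all [disjoint_comm]
  have hsum' : (nz f (Up Y1 Y2 R) : ℝ) + nz g (Up Y1 Y2 R) ≤
      nz f (Rg Y1 Y2 R) := by exact_mod_cast hsum
  have hdiv := div_le_div_of_nonneg_right hsum' (show 0 ≤ R * Real.log R by positivity)
  rw [add_div] at hdiv
  have e1 : (Y2 - Y1) / (2 * Real.pi * κ) = (Y2 - Y1) / (4 * Real.pi * κ) +
      (Y2 - Y1) / (4 * Real.pi * κ) := by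
    field_simp; ring
  rw [e1]
  linarith

theorem dyad (J : ℕ) (x R : ℝ) (h1 : R / 2 ^ J < x) (h2 : x ≤ R) :
    ∃ j ∈ Finset.range J, 1 / 2 ^ (j + 1) * R < x ∧ x ≤ 2 * (1 / 2 ^ (j + 1) * R) := by
  induction J with
  | zero =>
    exfalso
    simp at h1
    linarith
  | succ n ih =>
    rcases le_or_gt x (R / 2 ^ n) with h | h
    · refine ⟨n, by simp, ?_, ?_⟩
      · have e : 1 / 2 ^ (n + 1) * R = R / 2 ^ (n + 1) := by ring
        rw [e]
        exact h1
      · have e : 2 * (1 / 2 ^ (n + 1) * R) = R / 2 ^ n := by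
          rw [pow_succ]
          field_simp
        rw [e]
        exact h
    · obtain ⟨j, hj, h3⟩ := ih h
      exact ⟨j, by rw [Finset.mem_range] at hj ⊢; omega, h3⟩

/-- covering the region by blocks and a small disc -/
theorem rg_cover {f g : ℂ → ℂ} (hf : Differentiable ℂ f) (h0 : ∃ z₀, f z₀ ≠ 0)
    (hg : Differentiable ℂ g) (h0g : ∃ z₀, g z₀ ≠ 0)
    (hfg : ∀ A : Set ℂ, nz f {z | conj z ∈ A} = nz g A) {K X1 X2 δ : ℝ}
    (hK : 0 < K) (h1 : -K ≤ X1) (h2 : X2 ≤ K) (hδ : 0 < δ) (J : ℕ) :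
    ∀ᶠ R : ℝ in atTop, nz f (Rg X1 X2 R) ≤
      ∑ j ∈ Finset.range J, nz f (Blk (X1 - δ) (X2 + δ) (1 / 2 ^ (j + 1) * R)) +
      ∑ j ∈ Finset.range J, nz g (Blk (X1 - δ) (X2 + δ) (1 / 2 ^ (j + 1) * R)) +
      nz f {z | ‖z‖ ≤ 2 / 2 ^ J * R} := by
  have hlog := Real.tendsto_log_atTop
  have e1 : ∀ᶠ R : ℝ in atTop, K * Real.log R ≤ 1 / 2 ^ J * R := ev_lin hK (by positivity)
  have e2 : ∀ᶠ R : ℝ in atTop, ∀ j ∈ Finset.range J,
      (X1 - δ) * (Real.log (1 / 2 ^ (j + 1)) + Real.log R) ≤ X1 * Real.log R ∧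
      X2 * Real.log R ≤ (X2 + δ) * (Real.log (1 / 2 ^ (j + 1)) + Real.log R) := by
    rw [Filter.eventually_all_finset]
    intro j _
    have l1 := hlog.eventually_ge_atTop (((X1 - δ) * Real.log (1 / 2 ^ (j + 1))) / δ)
    have l2 := hlog.eventually_ge_atTop (-((X2 + δ) * Real.log (1 / 2 ^ (j + 1))) / δ)
    filter_upwards [l1, l2] with R hR1 hR2
    rw [div_le_iff₀ hδ] at hR1 hR2
    constructor <;> nlinarith
  filter_upwards [e1, e2, eventually_ge_atTop ((2 : ℝ) ^ (J + 1))] with R hR1 hR2 hR3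
  have hJ1 : (1 : ℝ) ≤ 2 ^ (J + 1) := one_le_pow₀ (by norm_num)
  have hRone : 1 ≤ R := hJ1.trans hR3
  have hR0 : 0 < R := by linarith
  have hl : 0 ≤ Real.log R := Real.log_nonneg hRone
  -- bound of the blocks
  have hbd : ∀ j ∈ Finset.range J, ∀ z ∈ Blk (X1 - δ) (X2 + δ) (1 / 2 ^ (j + 1) * R),
      ‖z‖ ≤ (|X1 - δ| + |X2 + δ|) * Real.log R + 2 * R := by
    intro j hj z hz
    rw [Finset.mem_range] at hj
    obtain ⟨a1, a2, a3, a4⟩ := hz
    have hp : (0 : ℝ) < 2 ^ (j + 1) := by positivity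
    have hp1 : (1 : ℝ) ≤ 2 ^ (j + 1) := one_le_pow₀ (by norm_num)
    have hT : 1 ≤ 1 / 2 ^ (j + 1) * R := by
      rw [one_div, inv_mul_eq_div, le_div_iff₀ hp, one_mul]
      refine le_trans ?_ hR3
      exact pow_le_pow_right₀ (by norm_num) (by omega)
    have hTR : 1 / 2 ^ (j + 1) * R ≤ R := by
      rw [one_div, inv_mul_eq_div]
      exact div_le_self hR0.le hp1
    have hlT : 0 ≤ Real.log (1 / 2 ^ (j + 1) * R) := Real.log_nonneg hT
    have hlTR : Real.log (1 / 2 ^ (j + 1) * R) ≤ Real.log R :=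
      Real.log_le_log (by linarith) hTR
    have him0 : 0 ≤ z.im := by linarith
    have hre : |z.re| ≤ (|X1 - δ| + |X2 + δ|) * Real.log R := by
      have b1 : -(|X1 - δ| * Real.log R) ≤ (X1 - δ) * Real.log (1 / 2 ^ (j + 1) * R) := by
        have := neg_abs_le (X1 - δ)
        have q : |X1 - δ| * Real.log (1 / 2 ^ (j + 1) * R) ≤ |X1 - δ| * Real.log R :=
          mul_le_mul_of_nonneg_left hlTR (abs_nonneg _)
        nlinarith
      have b2 : (X2 + δ) * Real.log (1 / 2 ^ (j + 1) * R) ≤ |X2 + δ| * Real.log R := by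
        have := le_abs_self (X2 + δ)
        have q : |X2 + δ| * Real.log (1 / 2 ^ (j + 1) * R) ≤ |X2 + δ| * Real.log R :=
          mul_le_mul_of_nonneg_left hlTR (abs_nonneg _)
        nlinarith
      have c1 : 0 ≤ |X1 - δ| * Real.log R := by positivity
      have c2 : 0 ≤ |X2 + δ| * Real.log R := by positivity
      rw [abs_le]
      constructor
      · linarith
      · linarith
    calc ‖z‖ ≤ |z.re| + |z.im| := Complex.norm_le_abs_re_add_abs_im z
      _ ≤ (|X1 - δ| + |X2 + δ|) * Real.log R + 2 * R := by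
          rw [abs_of_nonneg him0]
          exact add_le_add hre (by linarith)
  -- the union of the blocks
  have hmem : ∀ z : ℂ, X1 * Real.log R ≤ z.re → z.re ≤ X2 * Real.log R → R / 2 ^ J < z.im →
      z.im ≤ R → ∃ j ∈ Finset.range J, z ∈ Blk (X1 - δ) (X2 + δ) (1 / 2 ^ (j + 1) * R) := by
    intro z a1 a2 a3 a4
    obtain ⟨j, hj, b1, b2⟩ := dyad J z.im R a3 a4
    obtain ⟨c1, c2⟩ := hR2 j hj
    refine ⟨j, hj, ?_, ?_, b1, b2⟩
    · rw [Real.log_mul (by positivity) hR0.ne']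
      exact c1.trans a1
    · rw [Real.log_mul (by positivity) hR0.ne']
      exact a2.trans c2
  set U : Set ℂ := {z | ∃ j ∈ Finset.range J, z ∈ Blk (X1 - δ) (X2 + δ) (1 / 2 ^ (j + 1) * R)}
    with hU
  have u1 : nz f U ≤ ∑ j ∈ Finset.range J,
      nz f (Blk (X1 - δ) (X2 + δ) (1 / 2 ^ (j + 1) * R)) :=
    nz_le_sum hf h0 (Finset.range J) _ hbd (fun z hz => hz)
  have u2 : nz g U ≤ ∑ j ∈ Finset.range J,
      nz g (Blk (X1 - δ) (X2 + δ) (1 / 2 ^ (j + 1) * R)) :=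
    nz_le_sum hg h0g (Finset.range J) _ hbd (fun z hz => hz)
  have hUb : ∀ z ∈ U, ‖z‖ ≤ (|X1 - δ| + |X2 + δ|) * Real.log R + 2 * R := by
    rintro z ⟨j, hj, hz⟩
    exact hbd j hj z hz
  have u3 : nz f (Rg X1 X2 R) ≤ nz f U + nz f {z | conj z ∈ U} +
      nz f {z | ‖z‖ ≤ 2 / 2 ^ J * R} := by
    have hq : 0 ≤ (|X1 - δ| + |X2 + δ|) * Real.log R := by positivity
    have hd : 2 / 2 ^ J * R ≤ 2 * R := by
      apply mul_le_mul_of_nonneg_right _ hR0.le
      exact div_le_self (by norm_num) (one_le_pow₀ (by norm_num))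
    have := nz_le_sum hf h0 (Finset.univ : Finset (Fin 3))
      (fun i => ![U, {z | conj z ∈ U}, {z | ‖z‖ ≤ 2 / 2 ^ J * R}] i)
      (B := Rg X1 X2 R) (R := (|X1 - δ| + |X2 + δ|) * Real.log R + 2 * R) ?_ ?_
    · simpa [Fin.sum_univ_three] using this
    · intro i _ z hz
      fin_cases i
      · exact hUb z hz
      · have := hUb (conj z) hz
        rwa [Complex.norm_conj] at this
      · have hz' : ‖z‖ ≤ 2 / 2 ^ J * R := hz
        linarith
    · intro z hz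
      obtain ⟨a1, a2, a3⟩ := hz
      have him := Complex.abs_im_le_norm z
      rcases lt_or_ge (R / 2 ^ J) z.im with h | h
      · refine ⟨0, Finset.mem_univ _, ?_⟩
        exact hmem z a2 a3 h ((le_abs_self _).trans (him.trans a1))
      · rcases lt_or_ge z.im (-(R / 2 ^ J)) with h' | h'
        · refine ⟨1, Finset.mem_univ _, ?_⟩
          refine hmem (conj z) (by simpa using a2) (by simpa using a3) ?_ ?_
          · simp only [Complex.conj_im]
            linarith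
          · simp only [Complex.conj_im]
            exact (neg_le_abs _).trans (him.trans a1)
        · refine ⟨2, Finset.mem_univ _, ?_⟩
          show ‖z‖ ≤ 2 / 2 ^ J * R
          have habs : |z.re| ≤ K * Real.log R := by
            rw [abs_le]
            constructor
            · nlinarith
            · nlinarith
          have himabs : |z.im| ≤ R / 2 ^ J := by
            rw [abs_le]
            exact ⟨h', h⟩
          calc ‖z‖ ≤ |z.re| + |z.im| := Complex.norm_le_abs_re_add_abs_im z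
            _ ≤ 1 / 2 ^ J * R + R / 2 ^ J := add_le_add (habs.trans hR1) himabs
            _ = 2 / 2 ^ J * R := by ring
  rw [hfg U] at u3
  omega

theorem rg_upper {f g : ℂ → ℂ} (hf : Differentiable ℂ f) (h0 : ∃ z₀, f z₀ ≠ 0)
    (hg : Differentiable ℂ g) (h0g : ∃ z₀, g z₀ ≠ 0)
    (hfg : ∀ A : Set ℂ, nz f {z | conj z ∈ A} = nz g A) {κ K X1 X2 δ₀ τ : ℝ}
    (hκ : 0 < κ) (hK : 0 < K) (h1 : -K ≤ X1) (h2 : X2 ≤ K) (hδ₀ : 0 < δ₀)
    (hC : ∀ δ : ℝ, 0 < δ → δ ≤ δ₀ → ∃ L : ℝ, L ≤ (X2 - X1 + 2 * δ) / (4 * Real.pi * κ) ∧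
      Tendsto (fun T : ℝ => (nz f (Blk (X1 - δ) (X2 + δ) T) : ℝ) / (T * Real.log T)) atTop (𝓝 L))
    (hCg : ∀ δ : ℝ, 0 < δ → δ ≤ δ₀ → ∃ L : ℝ, L ≤ (X2 - X1 + 2 * δ) / (4 * Real.pi * κ) ∧
      Tendsto (fun T : ℝ => (nz g (Blk (X1 - δ) (X2 + δ) T) : ℝ) / (T * Real.log T)) atTop (𝓝 L))
    (hT : Tendsto (fun R : ℝ => (nz f {z | ‖z‖ ≤ R} : ℝ) / (R * Real.log R)) atTop (𝓝 τ))
    {η : ℝ} (hη : 0 < η) :
    ∀ᶠ R : ℝ in atTop, (nz f (Rg X1 X2 R) : ℝ) / (R * Real.log R) ≤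
      (X2 - X1) / (2 * Real.pi * κ) + η := by
  have hpi := Real.pi_pos
  have hnn : ∀ (h : ℂ → ℂ) (A : ℝ → Set ℂ) (L : ℝ),
      Tendsto (fun T : ℝ => (nz h (A T) : ℝ) / (T * Real.log T)) atTop (𝓝 L) → 0 ≤ L := by
    intro h A L hL
    refine ge_of_tendsto hL ?_
    filter_upwards [eventually_gt_atTop (1 : ℝ)] with T hT1
    have hl : 0 < Real.log T := Real.log_pos hT1
    positivity
  have hτ : 0 ≤ τ := hnn f (fun R => {z | ‖z‖ ≤ R}) τ hT
  -- choice of δ and J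
  obtain ⟨δ, hδ, hδ1, hδ2⟩ : ∃ δ : ℝ, 0 < δ ∧ δ ≤ δ₀ ∧ 2 * δ / (2 * Real.pi * κ) < η / 2 := by
    refine ⟨min δ₀ (η * (2 * Real.pi * κ) / 8), lt_min hδ₀ (by positivity), min_le_left _ _, ?_⟩
    have hm := min_le_right δ₀ (η * (2 * Real.pi * κ) / 8)
    rw [div_lt_iff₀ (by positivity)]
    have : 0 < η * (2 * Real.pi * κ) := by positivity
    linarith
  obtain ⟨J, hJ⟩ : ∃ J : ℕ, (1 / 2 : ℝ) ^ J < η / (4 * (τ + 1)) :=
    exists_pow_lt_of_lt_one (by positivity) (by norm_num)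
  have hJ2 : τ * (2 / 2 ^ J) < η / 2 := by
    have e : (2 : ℝ) / 2 ^ J = 2 * (1 / 2) ^ J := by
      rw [one_div, inv_pow]
      ring
    rw [e]
    rw [lt_div_iff₀ (by positivity)] at hJ
    have : 0 ≤ (1 / 2 : ℝ) ^ J := by positivity
    nlinarith
  obtain ⟨L, hL1, hL2⟩ := hC δ hδ hδ1
  obtain ⟨L', hL1', hL2'⟩ := hCg δ hδ hδ1
  have hL0 : 0 ≤ L := hnn f _ L hL2
  have hL0' : 0 ≤ L' := hnn g _ L' hL2'
  have hcov := rg_cover hf h0 hg h0g hfg hK h1 h2 hδ J
  have t1 : Tendsto (fun R : ℝ => ∑ j ∈ Finset.range J,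
      (nz f (Blk (X1 - δ) (X2 + δ) (1 / 2 ^ (j + 1) * R)) : ℝ) / (R * Real.log R)) atTop
      (𝓝 (∑ j ∈ Finset.range J, L * (1 / 2 ^ (j + 1)))) := by
    refine tendsto_finsetSum _ fun j _ => ?_
    exact resc (F := fun T => (nz f (Blk (X1 - δ) (X2 + δ) T) : ℝ)) (by positivity) hL2
  have t2 : Tendsto (fun R : ℝ => ∑ j ∈ Finset.range J,
      (nz g (Blk (X1 - δ) (X2 + δ) (1 / 2 ^ (j + 1) * R)) : ℝ) / (R * Real.log R)) atTop
      (𝓝 (∑ j ∈ Finset.range J, L' * (1 / 2 ^ (j + 1)))) := by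
    refine tendsto_finsetSum _ fun j _ => ?_
    exact resc (F := fun T => (nz g (Blk (X1 - δ) (X2 + δ) T) : ℝ)) (by positivity) hL2'
  have t3 : Tendsto (fun R : ℝ => (nz f {z | ‖z‖ ≤ 2 / 2 ^ J * R} : ℝ) / (R * Real.log R)) atTop
      (𝓝 (τ * (2 / 2 ^ J))) :=
    resc (F := fun T => (nz f {z | ‖z‖ ≤ T} : ℝ)) (by positivity) hT
  rw [← Finset.mul_sum, geo_sum] at t1 t2
  have t4 := (t1.add t2).add t3
  have hval : L * (1 - (1 / 2) ^ J) + L' * (1 - (1 / 2) ^ J) + τ * (2 / 2 ^ J) <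
      (X2 - X1) / (2 * Real.pi * κ) + η := by
    have q0 : 0 ≤ (1 / 2 : ℝ) ^ J := by positivity
    have q1 : L * (1 - (1 / 2) ^ J) ≤ L := by nlinarith
    have q2 : L' * (1 - (1 / 2) ^ J) ≤ L' := by nlinarith
    have q3 : (X2 - X1 + 2 * δ) / (4 * Real.pi * κ) + (X2 - X1 + 2 * δ) / (4 * Real.pi * κ) =
        (X2 - X1) / (2 * Real.pi * κ) + 2 * δ / (2 * Real.pi * κ) := by
      field_simp
      ring
    linarith
  have hev := t4.eventually (eventually_lt_nhds hval)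
  filter_upwards [hev, hcov, eventually_gt_atTop (1 : ℝ)] with R hR hRc hR1
  have hl : 0 < Real.log R := Real.log_pos hR1
  refine le_trans ?_ hR.le
  rw [← Finset.sum_div, ← Finset.sum_div, ← add_div, ← add_div]
  refine div_le_div_of_nonneg_right ?_ (by positivity)
  exact_mod_cast hRc

theorem dsc (D : Dat) (hD : Ok D) (hY : S_SYM D) (h1 : S_CNT D) (h2 : S_CNT (cj D))
    (hT : S_TOT D) : S_DSC D := by
  intro κ X1 X2 hκ hX1 hX12 hX2
  obtain ⟨hf, -, hcj⟩ := hY κ hκ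
  have hpi := Real.pi_pos
  have hd : (1 : ℝ) ≤ D.d := by exact_mod_cast hD.hd
  have hK : 0 < D.d * κ := by positivity
  have hd1 : 0 ≤ ((D.d : ℝ) - 1) * κ := mul_nonneg (by linarith) hκ.le
  have hX1' : -(D.d * κ) ≤ X1 := by linarith
  -- the function is not identically zero
  have h0 : ∃ z₀, XK D κ z₀ ≠ 0 := by
    by_contra hcon
    push Not at hcon
    have hz : ∀ z, analyticOrderNatAt (XK D κ) z = 0 := by
      intro z
      have : analyticOrderAt (XK D κ) z = ⊤ := by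
        rw [analyticOrderAt_eq_top]
        exact Eventually.of_forall hcon
      simp [analyticOrderNatAt, this]
    have hnz : ∀ A : Set ℂ, nz (XK D κ) A = 0 := by
      intro A
      unfold nz
      simp [hz]
    have ht := hT κ hκ
    simp only [hnz, Nat.cast_zero, zero_div] at ht
    have := tendsto_nhds_unique ht tendsto_const_nhds
    have hpos : 0 < (D.d : ℝ) / Real.pi := by positivity
    linarith
  have hge : XK (cj D) κ = fun w => conj (XK D κ (conj w)) := funext hcj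
  have hg : Differentiable ℂ (XK (cj D) κ) := by
    rw [hge]
    intro z
    exact (differentiableAt_conj_conj_iff (f := XK D κ) (x := z)).2 (hf (conj z))
  have h0g : ∃ z₀, XK (cj D) κ z₀ ≠ 0 := by
    obtain ⟨z₀, hz₀⟩ := h0
    refine ⟨conj z₀, ?_⟩
    rw [hge]
    simpa using hz₀
  have hfg : ∀ A : Set ℂ, nz (XK D κ) {z | conj z ∈ A} = nz (XK (cj D) κ) A := by
    intro A
    rw [hge]
    exact nz_conj hf A
  have hdc : (cj D).d = D.d := rfl
  -- lower bound data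
  have hell : ∀ Z1 Z2 : ℝ, X1 ≤ Z1 → Z1 ≤ Z2 → Z2 ≤ X2 → ell (D.d * κ) Z1 Z2 = Z2 - Z1 := by
    intro Z1 Z2 a b c
    unfold ell
    have q1 : min Z2 ((D.d : ℝ) * κ) = Z2 := min_eq_left (by linarith)
    have q2 : max Z1 (-((D.d : ℝ) * κ)) = Z1 := max_eq_left (by linarith)
    rw [q1, q2]
    exact max_eq_right (by linarith)
  have hC : ∀ Z1 Z2 : ℝ, X1 ≤ Z1 → Z1 ≤ Z2 → Z2 ≤ X2 →
      Tendsto (fun T : ℝ => (nz (XK D κ) (Blk Z1 Z2 T) : ℝ) / (T * Real.log T)) atTop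
        (𝓝 ((Z2 - Z1) / (4 * Real.pi * κ))) := by
    intro Z1 Z2 a b c
    have := h1 κ Z1 Z2 hκ (by linarith) b (by linarith)
    rw [hell Z1 Z2 a b c] at this
    exact this
  have hCg : ∀ Z1 Z2 : ℝ, X1 ≤ Z1 → Z1 ≤ Z2 → Z2 ≤ X2 →
      Tendsto (fun T : ℝ => (nz (XK (cj D) κ) (Blk Z1 Z2 T) : ℝ) / (T * Real.log T)) atTop
        (𝓝 ((Z2 - Z1) / (4 * Real.pi * κ))) := by
    intro Z1 Z2 a b c
    have := h2 κ Z1 Z2 hκ (by rw [hdc]; linarith) b (by rw [hdc]; linarith)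
    rw [hdc, hell Z1 Z2 a b c] at this
    exact this
  -- upper bound data
  have hδ₀ : 0 < min 1 ((X1 - (D.d - 1) * κ) / 2) := lt_min one_pos (by linarith)
  have hellu : ∀ δ : ℝ, 0 < δ → δ ≤ min 1 ((X1 - (D.d - 1) * κ) / 2) →
      ell (D.d * κ) (X1 - δ) (X2 + δ) ≤ X2 - X1 + 2 * δ := by
    intro δ a b
    unfold ell
    refine max_le (by linarith) ?_
    have q1 := min_le_left (X2 + δ) ((D.d : ℝ) * κ)
    have q2 := le_max_left (X1 - δ) (-((D.d : ℝ) * κ))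
    linarith
  have hU : ∀ δ : ℝ, 0 < δ → δ ≤ min 1 ((X1 - (D.d - 1) * κ) / 2) →
      ∃ L : ℝ, L ≤ (X2 - X1 + 2 * δ) / (4 * Real.pi * κ) ∧
      Tendsto (fun T : ℝ => (nz (XK D κ) (Blk (X1 - δ) (X2 + δ) T) : ℝ) / (T * Real.log T)) atTop
        (𝓝 L) := by
    intro δ a b
    have b1 := b.trans (min_le_left _ _)
    have b2 := b.trans (min_le_right _ _)
    refine ⟨_, ?_, h1 κ (X1 - δ) (X2 + δ) hκ (by linarith) (by linarith) (by linarith)⟩
    exact div_le_div_of_nonneg_right (hellu δ a b) (by positivity)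
  have hUg : ∀ δ : ℝ, 0 < δ → δ ≤ min 1 ((X1 - (D.d - 1) * κ) / 2) →
      ∃ L : ℝ, L ≤ (X2 - X1 + 2 * δ) / (4 * Real.pi * κ) ∧
      Tendsto (fun T : ℝ => (nz (XK (cj D) κ) (Blk (X1 - δ) (X2 + δ) T) : ℝ) / (T * Real.log T))
        atTop (𝓝 L) := by
    intro δ a b
    have b1 := b.trans (min_le_left _ _)
    have b2 := b.trans (min_le_right _ _)
    refine ⟨_, ?_, h2 κ (X1 - δ) (X2 + δ) hκ (by rw [hdc]; linarith) (by linarith)
      (by rw [hdc]; linarith)⟩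
    rw [hdc]
    exact div_le_div_of_nonneg_right (hellu δ a b) (by positivity)
  change Tendsto (fun R : ℝ => (nz (XK D κ) (Rg X1 X2 R) : ℝ) / (R * Real.log R)) atTop _
  rw [Metric.tendsto_nhds]
  intro ε hε
  have lo := rg_lower hf h0 hg h0g hfg hκ hK hC hCg hX1' hX2 (half_pos hε)
  have up := rg_upper hf h0 hg h0g hfg hκ hK hX1' hX2 hδ₀ hU hUg (hT κ hκ) (half_pos hε)
  filter_upwards [lo, up] with R r1 r2
  rw [Real.dist_eq, abs_lt]
  constructor
  · linarith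
  · linarith

end Pool.Agent.W236.BG
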